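import Pool.Agent.H482Z.CMDim.Main
import Pool.Agent.H482Z.CMDim.Exists

set_option autoImplicit false

namespace Pool.Agent.Results.MP_0a5ef7_al.AInfiniteDim

open Pool.Agent.H482Z.CMDim

universe u

/-- For every field `k` there is a one-dimensional Cohen-Macaulay local domain with residue field
`k`, of countable CM-representation type, whose category of maximal Cohen-Macaulay modules has
infinite dimension. -/
theorem result (k : Type u) [Field k] :
    ∃ (R : Type u) (_ : CommRing R) (_ : IsDomain R) (_ : IsNoetherianRing R) (_ : IsLocalRing R),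
      Nonempty (k ≃+* IsLocalRing.ResidueField R) ∧ ringKrullDim R = 1 ∧
      ModuleCat.of R R ∈ CM R ∧ CountableCMType R ∧ dimSub R (CM R) = ⊤ := by
  obtain ⟨d⟩ := exists_data k
  exact ⟨d.R, inferInstance, inferInstance, inferInstance, inferInstance, d.residue_equiv,
    d.dim_eq, d.self_mem_CM, d.countable, d.dim_top⟩

end Pool.Agent.Results.MP_0a5ef7_al.AInfiniteDim
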